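import Pool.Agent.ZPK.StmtsR

/-!
Squad ZPK (MP_6e1a06_nt), row CRI (block R): critical radii.
-/

set_option autoImplicit false

namespace Pool.Agent.ZPK.H37

open Polynomial Pool.Agent.ZPT Pool.Agent.ZP3 Pool.Agent.ZPK

noncomputable section

theorem cri_norm_pow_sub {K : Type} [NormedField K] [IsUltrametricDist K] {y : K}
    (hy : ‖y‖ < 1) (n : ℕ) : ‖(1 + y) ^ n - 1‖ ≤ ‖y‖ := by
  have h1 : ‖1 + y‖ ≤ 1 := by
    refine (IsUltrametricDist.norm_add_le_max 1 y).trans ?_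
    rw [norm_one]
    exact max_le le_rfl hy.le
  have h := mul_geom_sum (1 + y) n
  rw [← h, norm_mul, add_sub_cancel_left]
  have h2 : ‖∑ i ∈ Finset.range n, (1 + y) ^ i‖ ≤ 1 := by
    refine IsUltrametricDist.norm_sum_le_of_forall_le_of_nonneg zero_le_one fun i _ => ?_
    rw [norm_pow]
    exact pow_le_one₀ (norm_nonneg _) h1
  exact mul_le_of_le_one_right (norm_nonneg _) h2

theorem cri_log_pow {p : ℕ} {K : Type} [NormedField K] {Log : K → K} (hL : IsLog p Log) {x : K}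
    (hx : x ≠ 0) (n : ℕ) : Log (x ^ n) = n * Log x := by
  have h1 : Log 1 = 0 := by
    have := hL.mul 1 1 one_ne_zero one_ne_zero
    rw [mul_one] at this
    exact left_eq_add.mp this
  induction n with
  | zero => simp [h1]
  | succ n ih =>
    rw [pow_succ, hL.mul _ _ (pow_ne_zero _ hx) hx, ih]
    push_cast
    ring

theorem cri_norm_root {K : Type} [NormedField K] {z : K} {n : ℕ} (hn : n ≠ 0) (h : z ^ n = 1) :
    ‖z‖ = 1 := by
  have h1 : ‖z‖ ^ n = 1 := by rw [← norm_pow, h, norm_one]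
  exact (pow_eq_one_iff_of_nonneg (norm_nonneg _) hn).1 h1

/-- an element whose `n`-th power is close to `1` is close to an `n`-th root of unity -/
theorem cri_near {K : Type} [NormedField K] [CharZero K] [IsAlgClosed K] (u : K) {n : ℕ}
    (hn : 0 < n) : ∃ z : K, z ^ n = 1 ∧ ‖u - z‖ ^ n ≤ ‖u ^ n - 1‖ := by
  have : NeZero n := ⟨hn.ne'⟩
  obtain ⟨w, hw⟩ := HasEnoughRootsOfUnity.exists_primitiveRoot K n
  have hprod : u ^ n - 1 = ∏ x ∈ Polynomial.nthRootsFinset n (1 : K), (u - x) := by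
    have h1 := congrArg (Polynomial.eval u) (Polynomial.X_pow_sub_one_eq_prod hn hw)
    simpa [Polynomial.eval_prod] using h1
  have hcard := hw.card_nthRootsFinset
  have hne : (Polynomial.nthRootsFinset n (1 : K)).Nonempty := by
    rw [← Finset.card_pos, hcard]
    exact hn
  obtain ⟨z, hz, hmin⟩ := Finset.exists_min_image _ (fun x => ‖u - x‖) hne
  refine ⟨z, (Polynomial.mem_nthRootsFinset hn 1).1 hz, ?_⟩
  rw [hprod, norm_prod]
  calc ‖u - z‖ ^ n = ∏ _x ∈ Polynomial.nthRootsFinset n (1 : K), ‖u - z‖ := by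
        rw [Finset.prod_const, hcard]
    _ ≤ _ := Finset.prod_le_prod (fun _ _ => norm_nonneg _) (fun x hx => hmin x hx)

/-- **CRI** -/
theorem cri (hTHB : ZP3.THBStmt) (hWWN : ZP3.WWNStmt) (hLGR : LgrStmt) : CriStmt := by
  intro p hp h5 K _ _ _ _ _ hE Log hL y h ρ hy0 hy1 hyc hρ0 hρ hlog
  obtain ⟨ht1, ht0, htlt, -, -⟩ := hTHB p hp h5
  have hth3 : th p ^ 3 ≤ th p := by
    calc th p ^ 3 ≤ th p ^ 1 := pow_le_pow_of_le_one ht0.le htlt.le (by norm_num)
      _ = th p := pow_one _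
  have hq0 : 0 < p ^ h := pow_pos hp.pos h
  have h1y : (1 + y : K) ≠ 0 := by
    intro h0
    have : y = -1 := by linear_combination h0
    rw [this, norm_neg, norm_one] at hy1
    exact lt_irrefl _ hy1
  set x : K := (1 + y) ^ (p ^ h) - 1 with hx
  have hx1 : 1 + x = (1 + y) ^ (p ^ h) := by rw [hx]; ring
  have hxn : ‖x‖ < 1 := (cri_norm_pow_sub hy1 _).trans_lt hy1
  have hLx : Log (1 + x) = (p : K) ^ h * Log (1 + y) := by
    rw [hx1, cri_log_pow hL h1y]
    push_cast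
    rfl
  have hLn : ‖Log (1 + x)‖ ≤ ρ := by rw [hLx]; exact hlog
  obtain ⟨ξ', d', hξ', hfac, hd'⟩ := hLGR p hp h5 K hE Log hL x hxn
    (hLn.trans_lt (hρ.trans_le hth3))
  -- `ξ'` is a root of unity of order a power of `p`
  obtain ⟨k, hk⟩ : ∃ k : ℕ, ξ' ^ (p ^ k) = 1 := by
    rcases hξ' with rfl | ⟨k, hk⟩
    · exact ⟨0, one_pow _⟩
    · exact ⟨k + 1, hk.pow_eq_one⟩
  obtain ⟨η, hη⟩ := IsAlgClosed.exists_pow_nat_eq ξ' hq0
  have hξn : ‖ξ'‖ = 1 := cri_norm_root (pow_pos hp.pos k).ne' hk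
  have hξ0 : ξ' ≠ 0 := by
    intro h0
    rw [h0, norm_zero] at hξn
    exact zero_ne_one hξn
  have hη0 : η ≠ 0 := by
    intro h0
    rw [h0, zero_pow hq0.ne'] at hη
    exact hξ0 hη.symm
  obtain ⟨z, hz, hzn⟩ := cri_near ((1 + y) / η) hq0
  have hu : ((1 + y) / η) ^ (p ^ h) - 1 = d' := by
    rw [div_pow, hη, ← hx1, hfac, mul_div_cancel_left₀ _ hξ0, add_sub_cancel_left]
  rw [hu, hd'] at hzn
  have hz1 : ‖z‖ = 1 := cri_norm_root hq0.ne' hz
  have hz0 : z ≠ 0 := by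
    intro h0
    rw [h0, norm_zero] at hz1
    exact zero_ne_one hz1
  set ξ : K := η * z with hξdef
  set d : K := ((1 + y) / η - z) / z with hddef
  have hdn : ‖d‖ = ‖(1 + y) / η - z‖ := by rw [hddef, norm_div, hz1, div_one]
  have hdρ : ‖d‖ ^ (p ^ h) ≤ ρ := by rw [hdn]; exact hzn.trans hLn
  have hρ1 : ρ < 1 := (hρ.trans_le hth3).trans htlt
  have hd1 : ‖d‖ < 1 := by
    refine lt_of_pow_lt_pow_left₀ (p ^ h) zero_le_one ?_
    rw [one_pow]
    exact hdρ.trans_lt hρ1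
  have hmain : 1 + y = ξ * (1 + d) := by
    rw [hξdef, hddef]
    field_simp
    ring
  have hξpow : ξ ^ (p ^ (h + k)) = 1 := by
    rw [hξdef, mul_pow, pow_add, pow_mul η, pow_mul z, hη, hz, hk, one_pow, one_mul]
  have hξn1 : ‖ξ‖ = 1 := cri_norm_root (pow_pos hp.pos _).ne' hξpow
  -- `‖y‖ ^ (p ^ h) = th`
  have hyth : ‖y‖ ^ (p ^ h) = th p := by
    have h1 : (‖y‖ ^ (p ^ h)) ^ (p - 1) = th p ^ (p - 1) := by
      rw [← pow_mul, hyc, ht1]
    exact (pow_left_inj₀ (by positivity) ht0.le (by have := hp.two_le; omega)).1 h1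
  have hdy : ‖d‖ < ‖y‖ := by
    refine lt_of_pow_lt_pow_left₀ (p ^ h) (norm_nonneg _) ?_
    rw [hyth]
    exact hdρ.trans_lt (hρ.trans_le hth3)
  have hξ1 : ‖ξ - 1‖ = ‖y‖ := by
    have h1 : ξ - 1 = y + -(ξ * d) := by linear_combination hmain.symm
    have h2 : ‖-(ξ * d)‖ < ‖y‖ := by
      rw [norm_neg, norm_mul, hξn1, one_mul]
      exact hdy
    rw [h1, IsUltrametricDist.norm_add_eq_max_of_norm_ne_norm h2.ne', max_eq_left h2.le]
  obtain ⟨j, -, hj⟩ := (Nat.dvd_prime_pow hp).1 (orderOf_dvd_of_pow_eq_one hξpow)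
  have hprim := IsPrimitiveRoot.orderOf ξ
  rw [hj] at hprim
  have hj1 : 1 ≤ j := by
    by_contra hc
    have hj0 : j = 0 := by omega
    rw [hj0, pow_zero] at hprim
    have h1 := hprim.pow_eq_one
    rw [pow_one] at h1
    rw [h1, sub_self, norm_zero] at hξ1
    exact hy0.ne hξ1
  obtain ⟨hw, -⟩ := hWWN p hp (by omega) K hE j ξ hj1 hprim
  rw [hξ1] at hw
  have hexp : p ^ (j - 1) * (p - 1) = p ^ h * (p - 1) :=
    pow_right_injective₀ hy0 hy1.ne (hw.trans hyc.symm)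
  have h3 : p ^ (j - 1) = p ^ h := Nat.eq_of_mul_eq_mul_right (by have := hp.two_le; omega) hexp
  have h4 : j - 1 = h := Nat.pow_right_injective hp.two_le h3
  have h5' : j = h + 1 := by omega
  rw [h5'] at hprim
  exact ⟨ξ, d, hprim, hmain, hd1, hdρ⟩

end

end Pool.Agent.ZPK.H37
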