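import Pool.Agent.ZPK.StmtsR

/-!
Squad ZPK (MP_6e1a06_nt), row KPS (block R): the norm of `s θ - κ`.
-/

set_option autoImplicit false

namespace Pool.Agent.ZPK.H37

open Polynomial Pool.Agent.ZPT Pool.Agent.ZP3 Pool.Agent.ZPK

noncomputable section

/-- a rational number of norm one is congruent to an integer -/
theorem exists_int_close {p : ℕ} (hp : p.Prime) (r : ℚ) (hr : padicNorm p r = 1) :
    ∃ m : ℤ, padicNorm p (r - m) < 1 := by
  have : Fact p.Prime := ⟨hp⟩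
  have h1 : ‖(r : ℚ_[p])‖ ≤ 1 := by
    rw [Padic.eq_padicNorm, hr]
    simp
  obtain ⟨n, -, -, hn⟩ := PadicInt.exists_mem_range_of_norm_rat_le_one r h1
  refine ⟨n, ?_⟩
  have h2 : ‖((r - n : ℚ) : ℚ_[p])‖ < 1 := by
    obtain ⟨z, hz⟩ : ∃ z : ℤ_[p], (z : ℚ_[p]) = (r : ℚ_[p]) ∧ ‖z - (n : ℤ_[p])‖ < 1 :=
      ⟨⟨(r : ℚ_[p]), h1⟩, rfl, hn⟩
    have h3 := hz.2
    rw [PadicInt.norm_def, PadicInt.coe_sub, PadicInt.coe_intCast, hz.1] at h3
    rw [Rat.cast_sub, Rat.cast_intCast]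
    exact h3
  rw [Padic.eq_padicNorm] at h2
  exact_mod_cast h2

/-- **KPS** -/
theorem kps : KpsStmt := by
  intro p hp K _ _ _ hE θ κ hθ hκ s
  have hp0 : (0 : ℝ) < p := by exact_mod_cast hp.pos
  by_cases hne : ‖((s : ℚ) : K) * θ‖ = ‖κ‖
  swap
  · rw [sub_eq_add_neg, IsUltrametricDist.norm_add_eq_max_of_norm_ne_norm
      (by rw [norm_neg]; exact hne), norm_neg]
  rw [← hne, max_self]
  rcases hκ with hκ | ⟨N, y, hy, hκ, hm⟩
  · rw [hκ, sub_zero]
  -- norms of the powers of `p`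
  have hpK : ‖(p : K)‖ = (p : ℝ)⁻¹ := by
    have h1 := hE (p : ℚ)
    rw [padicNorm.padicNorm_p hp.one_lt] at h1
    simpa using h1
  have hpK0 : (p : K) ≠ 0 := by
    intro h
    rw [h, norm_zero] at hpK
    exact (inv_pos.mpr hp0).ne hpK
  -- the rational number `r = p ^ N / (s p)`
  set r : ℚ := (p : ℚ) ^ N / (s * p) with hr
  have hκn : ‖κ‖ = ((p : ℝ)⁻¹) ^ N := by
    rw [hκ, norm_mul, norm_pow, hpK, hy, mul_one]
  have hκ0 : ‖κ‖ ≠ 0 := by
    rw [hκn]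
    positivity
  have hs0 : s ≠ 0 := by
    intro h
    apply hκ0
    rw [← hne, h]
    simp
  have hsK : ((s : ℚ) : K) ≠ 0 := by exact_mod_cast hs0
  have hθ0 : θ ≠ 0 := by
    intro h
    rw [h, norm_zero] at hθ
    exact (inv_pos.mpr hp0).ne hθ
  have hrK : ((r : ℚ) : K) = (p : K) ^ N / (((s : ℚ) : K) * p) := by
    rw [hr]
    push_cast
    rfl
  have hrn : ‖((r : ℚ) : K)‖ = 1 := by
    rw [hrK, norm_div, norm_pow, norm_mul, hpK]
    have h1 : ‖((s : ℚ) : K)‖ * (p : ℝ)⁻¹ = ((p : ℝ)⁻¹) ^ N := by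
      rw [← hκn, ← hne, norm_mul, hθ]
    rw [h1]
    exact div_self (by positivity)
  have hr1 : padicNorm p r = 1 := by
    have h1 := hE r
    rw [hrn] at h1
    exact_mod_cast h1.symm
  obtain ⟨m, hm1⟩ := exists_int_close hp r hr1
  have hm2 : ‖((r : ℚ) : K) - (m : K)‖ < 1 := by
    have h1 := hE (r - m)
    push_cast at h1
    rw [h1]
    exact_mod_cast hm1
  have hm3 := hm m
  -- the main identity
  have key : ((s : ℚ) : K) * θ - κ =
      ((s : ℚ) : K) * p * ((θ / p - m * y) - (((r : ℚ) : K) - m) * y) := by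
    rw [hκ, hrK]
    field_simp
    ring
  have h4 : ‖(θ / p - m * y) - (((r : ℚ) : K) - m) * y‖ = 1 := by
    have h5 : ‖(((r : ℚ) : K) - m) * y‖ < 1 := by
      rw [norm_mul, hy, mul_one]
      exact hm2
    rw [sub_eq_add_neg, IsUltrametricDist.norm_add_eq_max_of_norm_ne_norm, hm3, norm_neg,
      max_eq_left h5.le]
    rw [hm3, norm_neg]
    exact h5.ne'
  rw [key, norm_mul, norm_mul, h4, mul_one, norm_mul, hpK, hθ]

end

end Pool.Agent.ZPK.H37
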